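import Pool.Agent.Helper49.HW.Defs2
import Pool.Agent.Helper16.HW.A1

/-! Heights under a tilted law: block H of MP_074879_pr. -/

open Finset

namespace HW

/-! ### generating functions -/

namespace BH

variable {p : ℕ → ℝ} {K : ℕ}

/-- generating function -/
noncomputable def gf (p : ℕ → ℝ) (K : ℕ) (x : ℝ) : ℝ := ∑ k ∈ range K, p k * x ^ k

theorem hq_succ (h : ℕ) : hq p K (h + 1) = gf p K (hq p K h) := rfl

theorem gf_mono (hp : ∀ k, 0 ≤ p k) {x y : ℝ} (hx : 0 ≤ x) (hxy : x ≤ y) :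
    gf p K x ≤ gf p K y :=
  Finset.sum_le_sum fun k _ => mul_le_mul_of_nonneg_left (pow_le_pow_left₀ hx hxy k) (hp k)

theorem gf_one (hp : ∑ k ∈ range K, p k = 1) : gf p K 1 = 1 := by
  simp [gf, hp]

theorem hq_mem (hp : ∀ k, 0 ≤ p k) (hp1 : ∑ k ∈ range K, p k = 1) (h : ℕ) :
    0 ≤ hq p K h ∧ hq p K h ≤ 1 := by
  induction h with
  | zero => exact ⟨le_refl _, zero_le_one⟩
  | succ h ih =>
    rw [hq_succ]
    refine ⟨Finset.sum_nonneg fun k _ => mul_nonneg (hp k) (pow_nonneg ih.1 k), ?_⟩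
    rw [← gf_one hp1]
    exact gf_mono hp ih.1 ih.2

theorem hq_mono (hp : ∀ k, 0 ≤ p k) (hp1 : ∑ k ∈ range K, p k = 1) (h : ℕ) :
    hq p K h ≤ hq p K (h + 1) := by
  induction h with
  | zero => exact (hq_mem hp hp1 1).1
  | succ h ih =>
    rw [hq_succ, hq_succ]
    exact gf_mono hp (hq_mem hp hp1 h).1 ih

theorem hq_mono' (hp : ∀ k, 0 ≤ p k) (hp1 : ∑ k ∈ range K, p k = 1) {h h' : ℕ} (hh : h ≤ h') :
    hq p K h ≤ hq p K h' :=
  monotone_nat_of_le_succ (fun n => hq_mono hp hp1 n) hh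

theorem one_sub_gf_ge (hp : ∀ k, 0 ≤ p k) (hp1 : ∑ k ∈ range K, p k = 1) (hK : 2 ≤ K) {x : ℝ}
    (hx : 0 ≤ x) (hx1 : x ≤ 1) : p 1 * (1 - x) ≤ 1 - gf p K x := by
  have h1 : 1 - gf p K x = ∑ k ∈ range K, p k * (1 - x ^ k) := by
    have h2 : ∑ k ∈ range K, p k * (1 - x ^ k) = ∑ k ∈ range K, p k - gf p K x := by
      unfold gf
      rw [← Finset.sum_sub_distrib]
      exact Finset.sum_congr rfl fun k _ => by ring
    rw [h2, hp1]
  rw [h1]
  have h2 := Finset.single_le_sum (f := fun k => p k * (1 - x ^ k)) (s := range K)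
    (fun k _ => mul_nonneg (hp k) (sub_nonneg.2 (pow_le_one₀ hx hx1)))
    (Finset.mem_range.2 (show 1 < K by omega))
  simpa using h2

theorem gf_ge (hp : ∀ k, 0 ≤ p k) (hK : 2 ≤ K) {x : ℝ} (hx : 0 ≤ x) :
    p 0 + p 1 * x ≤ gf p K x := by
  have h2 : ∑ k ∈ range 2, p k * x ^ k ≤ gf p K x := by
    unfold gf
    refine Finset.sum_le_sum_of_subset_of_nonneg ?_ fun k _ _ => mul_nonneg (hp k) (pow_nonneg hx k)
    intro k hk
    rw [Finset.mem_range] at hk ⊢
    omega
  simpa [Finset.sum_range_succ] using h2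

end BH

open BH

section main
variable {w : ℕ → ℝ} {K : ℕ}

theorem BH.ms_zero (hw : IsLaw w K) : ms w K 0 = 1 := by
  simp [ms, hw.one]

theorem BH.ms_le (hw : IsLaw w K) (u : ℝ) (hu : 0 ≤ u) : ms w K u ≤ Real.exp u := by
  have h1 : ms w K u ≤ ∑ k ∈ range K, w k * Real.exp u := by
    refine Finset.sum_le_sum fun k _ => mul_le_mul_of_nonneg_left ?_ (hw.nonneg k)
    apply Real.exp_le_exp.2
    have : (0 : ℝ) ≤ k := Nat.cast_nonneg k
    nlinarith
  rw [← Finset.sum_mul, hw.one, one_mul] at h1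
  exact h1

/-- the generating function of the tilted law -/
theorem BH.gf_tilt (u t : ℝ) :
    gf (tilt w K u) K (Real.exp (-t)) = Real.exp (-t) * (ms w K (u + t) / ms w K u) := by
  have h1 : ms w K (u + t) = ∑ k ∈ range K, w k * Real.exp (-(u + t) * ((k : ℝ) - 1)) := rfl
  unfold gf tilt
  rw [← mul_div_assoc, h1, Finset.mul_sum, Finset.sum_div]
  refine Finset.sum_congr rfl fun k _ => ?_
  rw [← Real.exp_nat_mul, div_mul_eq_mul_div]
  congr 1
  rw [mul_assoc, ← Real.exp_add, mul_left_comm, ← Real.exp_add]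
  congr 2
  ring

/-- bounds of the one step decrement of `s = P(height ≥ h)` -/
theorem BH.ms_mono (hw : IsLaw w K) (hε : 0 < epsL w K) (a b : ℝ) (ha : 0 ≤ a) (hab : a ≤ b) :
    ms w K a + (b - a) * Fs w K a ≤ ms w K b ∧ ms w K a ≤ ms w K b := by
  have h1 := ms_ge w K hw.nonneg a b
  have h2 : 0 < Fs w K a := by
    have := Fs_mono w K hw.nonneg 0 a ha
    rw [Fs_zero] at this
    linarith
  exact ⟨h1, by nlinarith⟩

theorem BH.one_le_ms (hw : IsLaw w K) (hε : 0 < epsL w K) (u : ℝ) (hu : 0 ≤ u) :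
    1 ≤ ms w K u := by
  have := (BH.ms_mono hw hε 0 u (le_refl _) hu).2
  rwa [BH.ms_zero hw] at this

theorem BH.exp_small {u : ℝ} (hu : 0 ≤ u) (hu1 : u ≤ 1 / 4000) : Real.exp u ≤ 1001 / 1000 := by
  have h1 : Real.exp u * (1 - u) ≤ 1 := by
    have h2 := Real.add_one_le_exp (-u)
    have h3 : Real.exp u * Real.exp (-u) = 1 := by rw [← Real.exp_add]; simp
    nlinarith [Real.exp_pos u]
  nlinarith [Real.exp_pos u]

variable (hw : IsLaw w K) (hR : Reg w) (h0 : 2 / 5 ≤ w 0) (h1 : 2 / 5 ≤ w 1)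
  (hε : 0 < epsL w K) (u : ℝ) (hu : 0 ≤ u) (hu1 : u ≤ 1 / 4000)
  (hflat : Fs w K (2 * u) ≤ 2 * epsL w K)

include hw h1 in
theorem BH.two_le : 2 ≤ K := by
  by_contra h
  have := hw.supp 1 (by omega)
  linarith

include hw hε hu in
theorem BH.tilt_nonneg (k : ℕ) : 0 ≤ tilt w K u k :=
  div_nonneg (mul_nonneg (hw.nonneg k) (Real.exp_pos _).le)
    (zero_le_one.trans (BH.one_le_ms hw hε u hu))

include hw hε hu in
theorem BH.tilt_one : ∑ k ∈ range K, tilt w K u k = 1 := by
  unfold tilt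
  rw [← Finset.sum_div]
  exact div_self (ne_of_gt (lt_of_lt_of_le zero_lt_one (BH.one_le_ms hw hε u hu)))

include hw h0 h1 hε hu hu1 in
theorem BH.tilt_ge : 39 / 100 ≤ tilt w K u 0 ∧ 39 / 100 ≤ tilt w K u 1 := by
  have e1 := BH.one_le_ms hw hε u hu
  have e2 := (BH.ms_le hw u hu).trans (BH.exp_small hu hu1)
  unfold tilt
  constructor
  · rw [le_div_iff₀ (by linarith)]
    have : 1 ≤ Real.exp (-u * (((0 : ℕ) : ℝ) - 1)) := Real.one_le_exp (by push_cast; linarith)
    refine le_trans ?_ (le_mul_of_one_le_right (hw.nonneg 0) this)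
    linarith
  · rw [le_div_iff₀ (by linarith)]
    have : Real.exp (-u * (((1 : ℕ) : ℝ) - 1)) = 1 := by simp
    rw [this]
    linarith

include hw hR in
theorem BH.d_pos (hε : 0 < epsL w K) (i : ℕ) : 0 < Dp w (2 ^ i) ∧
    Dp w (2 ^ (i + 1)) ≤ Dp w (2 ^ i) ∧
    Dp w (2 ^ i) ≤ (1 + 1 / 250) * Dp w (2 ^ (i + 1)) := by
  have e1 : 1 ≤ 2 ^ i := Nat.one_le_two_pow
  refine ⟨lt_of_lt_of_le hε (eps_le_Dp w K hw.nonneg hw.supp _ e1),
    Dp_anti w hw.nonneg _ _ e1 (by rw [pow_succ]; omega), ?_⟩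
  have := Dp_slow w hw.nonneg hR (2 ^ i) e1
  rwa [show 2 * 2 ^ i = 2 ^ (i + 1) by rw [pow_succ]; ring] at this

theorem BH.d_zero : Dp w (2 ^ 0) = w 0 := by
  simp [Dp, Finset.sum_range_succ]

theorem BH.dec_eq (hm : ms w K u ≠ 0) (s : ℝ) (hs1 : s < 1) :
    s - (1 - gf (tilt w K u) K (1 - s)) =
      (1 - s) * ((ms w K (u + -Real.log (1 - s)) - ms w K u) / ms w K u) := by
  have h1 : Real.exp (-(-Real.log (1 - s))) = 1 - s := by
    rw [neg_neg, Real.exp_log (by linarith)]
  have h2 := BH.gf_tilt (w := w) (K := K) u (-Real.log (1 - s))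
  rw [h1] at h2
  rw [h2, sub_div, div_self hm]
  ring

include hw hR hε hu hu1 in
/-- lower bound of the decrement -/
theorem BH.dec_ge (s : ℝ) (i : ℕ) (hs : 1 / 2 ^ (i + 1) < s) (hs1 : s ≤ 1 / 2) :
    15 / 100 * s * Dp w (2 ^ i) ≤ s - (1 - gf (tilt w K u) K (1 - s)) := by
  have hs0 : 0 < s := lt_trans (by positivity) hs
  have e1 := BH.one_le_ms hw hε u hu
  have e2 := (BH.ms_le hw u hu).trans (BH.exp_small hu hu1)
  rw [BH.dec_eq u (by linarith) s (by linarith)]
  set t := -Real.log (1 - s) with ht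
  have ht1 : s ≤ t := by
    have := Real.log_le_sub_one_of_pos (show 0 < 1 - s by linarith)
    linarith
  -- `m(u+t) - m(u) ≥ (s/2) F(s/2)`
  have a1 := (BH.ms_mono hw hε u (u + t / 2) hu (by linarith)).2
  have a2 := (BH.ms_mono hw hε (u + t / 2) (u + t) (by linarith) (by linarith)).1
  have a3 := Fs_mono w K hw.nonneg (s / 2) (u + t / 2) (by linarith)
  have a4 := Dp_le_Fs w K hw.nonneg hw.supp hε.le (s / 2) (by linarith) (2 ^ (i + 2)) (by
    have : (1 : ℝ) / 2 ^ (i + 1) * 2 ^ (i + 1) = 1 := by field_simp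
    push_cast
    rw [pow_succ (2 : ℝ) (i + 1)]
    have h3 : (0 : ℝ) < 2 ^ (i + 1) := by positivity
    nlinarith)
  have a5 : Dp w (2 ^ (i + 3)) ≤ Dp w (2 ^ (i + 2) + 1) :=
    Dp_anti w hw.nonneg _ _ (Nat.le_add_left _ _) (by
      rw [show i + 3 = (i + 2) + 1 by ring, pow_succ 2 (i + 2)]
      have : 1 ≤ 2 ^ (i + 2) := Nat.one_le_two_pow
      omega)
  have b0 := BH.d_pos hw hR hε i
  have b1 := BH.d_pos hw hR hε (i + 1)
  have b2 := BH.d_pos hw hR hε (i + 2)
  set d := Dp w (2 ^ i)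
  have a6 : d ≤ (1 + 1 / 250) ^ 3 * (8 / 5 * Fs w K (s / 2)) := by
    have c1 := b0.2.2
    have c2 := b1.2.2
    have c3 := b2.2.2
    have c4 : Dp w (2 ^ (i + 2 + 1)) ≤ 8 / 5 * Fs w K (s / 2) := a5.trans a4
    simp only [show i + 1 + 1 = i + 2 by ring] at *
    nlinarith
  have a7 : 61 / 100 * d ≤ Fs w K (s / 2) := by
    have := b0.1
    norm_num at a6
    linarith
  have hF : 0 < Fs w K (s / 2) := by have := b0.1; linarith
  have a8 : s / 2 * Fs w K (s / 2) ≤ ms w K (u + t) - ms w K u := by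
    have : t / 2 * Fs w K (u + t / 2) ≤ ms w K (u + t) - ms w K (u + t / 2) := by
      have h3 : u + t - (u + t / 2) = t / 2 := by ring
      rw [h3] at a2
      linarith
    have h4 : s / 2 * Fs w K (s / 2) ≤ t / 2 * Fs w K (u + t / 2) :=
      mul_le_mul (by linarith) a3 hF.le (by linarith)
    linarith
  have a9 : s / 2 * (61 / 100 * d) ≤ ms w K (u + t) - ms w K u := by
    have : s / 2 * (61 / 100 * d) ≤ s / 2 * Fs w K (s / 2) :=
      mul_le_mul_of_nonneg_left a7 (by linarith)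
    linarith
  have hd := b0.1
  have a10 : s / 2 * (61 / 100 * d) * (1000 / 1001) ≤ (ms w K (u + t) - ms w K u) / ms w K u := by
    rw [le_div_iff₀ (by linarith)]
    have h5 : 0 ≤ s / 2 * (61 / 100 * d) := by positivity
    nlinarith
  have h6 : 0 ≤ s * d := by positivity
  have h7 : 1 / 2 * (s / 2 * (61 / 100 * d) * (1000 / 1001)) ≤
      (1 - s) * ((ms w K (u + t) - ms w K u) / ms w K u) :=
    mul_le_mul (by linarith) a10 (by positivity) (by linarith)
  nlinarith

include hw hR hε hu hflat h1 in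
/-- upper bound of the decrement -/
theorem BH.dec_le (s : ℝ) (i : ℕ) (hs0 : 0 < s) (hs : s ≤ 1 / 2 ^ i) (hi : 2 ≤ i) :
    s - (1 - gf (tilt w K u) K (1 - s)) ≤ 12 / 5 * s * Dp w (2 ^ i) := by
  have hp2 : (0 : ℝ) < 2 ^ i := by positivity
  have hs4 : s ≤ 1 / 4 := by
    refine hs.trans ?_
    have : (4 : ℝ) ≤ 2 ^ i := by
      have := pow_le_pow_right₀ (show (1 : ℝ) ≤ 2 by norm_num) hi
      norm_num at this ⊢
      exact this
    exact one_div_le_one_div_of_le (by norm_num) this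
  have e1 := BH.one_le_ms hw hε u hu
  rw [BH.dec_eq u (by linarith) s (by linarith)]
  set t := -Real.log (1 - s) with ht
  have ht1 : s ≤ t := by
    have := Real.log_le_sub_one_of_pos (show 0 < 1 - s by linarith)
    linarith
  have ht2 : (1 - s) * t ≤ s := by
    have := Real.one_sub_inv_le_log_of_pos (show 0 < 1 - s by linarith)
    have h3 : (1 - s) * (1 - (1 - s)⁻¹) ≤ (1 - s) * Real.log (1 - s) :=
      mul_le_mul_of_nonneg_left this (by linarith)
    rw [mul_sub, mul_inv_cancel₀ (by linarith)] at h3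
    rw [ht]
    linarith
  have ht3 : t ≤ 4 / 3 * s := by nlinarith
  have b0 := BH.d_pos hw hR hε i
  set d := Dp w (2 ^ i) with hd
  -- bound of `F(u + t)`
  have key : Fs w K (u + t) ≤ 12 / 5 * d := by
    by_cases hut : t ≤ u
    · have c1 := Fs_mono w K hw.nonneg (u + t) (2 * u) (by linarith)
      have c2 := eps_le_Dp w K hw.nonneg hw.supp (2 ^ i) Nat.one_le_two_pow
      have := b0.1
      rw [← hd] at c2
      linarith
    · have c1 := Fs_mono w K hw.nonneg (u + t) (8 / 3 * s) (by linarith)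
      have c2 := Fs_le_Dp w K hw.nonneg hw.supp (BH.two_le hw h1) (8 / 3 * s) (by linarith)
        (2 ^ i) Nat.one_le_two_pow
      have c3 := hR (2 ^ i) Nat.one_le_two_pow
      rw [← hd] at c2 c3
      push_cast at c3
      -- exponential
      have c4 : Real.exp (8 / 3 * s) - 1 ≤ 16 / 3 * s := by
        have h3 := Real.add_one_le_exp (-(8 / 3 * s))
        have h4 : Real.exp (8 / 3 * s) * Real.exp (-(8 / 3 * s)) = 1 := by
          rw [← Real.exp_add]; simp
        have h5 : Real.exp (8 / 3 * s) ≤ 2 := by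
          have h6 : Real.exp (8 / 3 * s) ≤ Real.exp (2 / 3) := Real.exp_le_exp.2 (by linarith)
          have h7 : Real.exp (2 / 3) ≤ 2 := by
            have h8 : Real.exp (2 / 3) ^ 3 = Real.exp 2 := by
              rw [← Real.exp_nat_mul]; norm_num
            have h9 : Real.exp 2 = Real.exp 1 ^ 2 := by
              rw [← Real.exp_nat_mul]; norm_num
            have h10 := Real.exp_one_lt_d9
            by_contra hc
            push Not at hc
            have h11 : (2 : ℝ) ^ 3 < Real.exp (2 / 3) ^ 3 :=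
              pow_lt_pow_left₀ hc (by norm_num) (by norm_num)
            rw [h8, h9] at h11
            have h12 : Real.exp 1 ^ 2 < 2.7182818286 ^ 2 :=
              pow_lt_pow_left₀ h10 (Real.exp_pos 1).le (by norm_num)
            norm_num at h11 h12
            linarith
          linarith
        nlinarith [Real.exp_pos (8 / 3 * s)]
      -- `w 0 * s ≤ 0.26 d`
      have c5 : ∀ j : ℕ, w 0 / 2 ^ j ≤ (502 / 1000) ^ j * Dp w (2 ^ j) := by
        intro j
        induction j with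
        | zero => rw [BH.d_zero]; simp
        | succ j ih =>
          have c6 := (BH.d_pos hw hR hε j).2.2
          have c7 : (0 : ℝ) < (502 / 1000) ^ j := by positivity
          rw [pow_succ, ← div_div, pow_succ (502 / 1000 : ℝ) j]
          have c8 : (502 / 1000 : ℝ) ^ j * Dp w (2 ^ j) ≤
              (502 / 1000 : ℝ) ^ j * ((1 + 1 / 250) * Dp w (2 ^ (j + 1))) :=
            mul_le_mul_of_nonneg_left c6 c7.le
          nlinarith
      have c6 : w 0 * s ≤ 253 / 1000 * d := by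
        have c7 : w 0 * s ≤ w 0 / 2 ^ i := by
          rw [div_eq_mul_one_div]
          exact mul_le_mul_of_nonneg_left hs (hw.nonneg 0)
        have c8 := c5 i
        have c9 : (502 / 1000 : ℝ) ^ i ≤ (502 / 1000) ^ 2 :=
          pow_le_pow_of_le_one (by norm_num) (by norm_num) hi
        have c10 : (502 / 1000 : ℝ) ^ i * d ≤ (502 / 1000) ^ 2 * d :=
          mul_le_mul_of_nonneg_right c9 b0.1.le
        rw [← hd] at c8
        have := b0.1
        norm_num at c10
        linarith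
      have c7 : 8 / 3 * s * Vp w (2 ^ i) ≤ 8 / 3 * (1 / 500) * d := by
        have c8 : s * Vp w (2 ^ i) ≤ s * (1 / 500 * 2 ^ i * d) :=
          mul_le_mul_of_nonneg_left c3 hs0.le
        have c9 : s * 2 ^ i ≤ 1 := by rwa [le_div_iff₀ hp2] at hs
        have := b0.1
        nlinarith
      have c8 : w 0 * (Real.exp (8 / 3 * s) - 1) ≤ 16 / 3 * (w 0 * s) := by
        have := mul_le_mul_of_nonneg_left c4 (hw.nonneg 0)
        linarith
      have := b0.1
      linarith
  have hF0 : 0 ≤ Fs w K (u + t) := by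
    have := Fs_mono w K hw.nonneg 0 (u + t) (by linarith)
    rw [Fs_zero] at this
    linarith
  have a1 : ms w K (u + t) - ms w K u ≤ t * Fs w K (u + t) := by
    have := ms_ge w K hw.nonneg (u + t) u
    nlinarith
  have a0 : 0 ≤ ms w K (u + t) - ms w K u := by
    have := (BH.ms_mono hw hε u (u + t) hu (by linarith)).2
    linarith
  have a2 : (ms w K (u + t) - ms w K u) / ms w K u ≤ t * Fs w K (u + t) := by
    rw [div_le_iff₀ (by linarith)]
    have : 0 ≤ t * Fs w K (u + t) := mul_nonneg (by linarith) hF0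
    nlinarith
  calc (1 - s) * ((ms w K (u + t) - ms w K u) / ms w K u)
      ≤ (1 - s) * (t * Fs w K (u + t)) := mul_le_mul_of_nonneg_left a2 (by linarith)
    _ = ((1 - s) * t) * Fs w K (u + t) := by ring
    _ ≤ s * Fs w K (u + t) := mul_le_mul_of_nonneg_right ht2 hF0
    _ ≤ s * (12 / 5 * d) := mul_le_mul_of_nonneg_left key hs0.le
    _ = 12 / 5 * s * d := by ring

theorem BH.s_pos (p : ℕ → ℝ) (K : ℕ) (hp : ∀ k, 0 ≤ p k) (hp1 : ∑ k ∈ range K, p k = 1)
    (hK : 2 ≤ K) (h1 : 39 / 100 ≤ p 1) (h : ℕ) : 0 < 1 - hq p K h := by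
  induction h with
  | zero => simp [hq]
  | succ h ih =>
    rw [hq_succ]
    have h2 := one_sub_gf_ge hp hp1 hK (hq_mem hp hp1 h).1 (hq_mem hp hp1 h).2
    nlinarith

/-- abstract upper bound -/
theorem BH.upper (p : ℕ → ℝ) (K : ℕ) (hp : ∀ k, 0 ≤ p k) (hp1 : ∑ k ∈ range K, p k = 1)
    (hK : 2 ≤ K) (h0 : 39 / 100 ≤ p 0) (h1 : 39 / 100 ≤ p 1) (d : ℕ → ℝ)
    (hd0 : ∀ i, 0 < d i) (hd1 : ∀ i, d (i + 1) ≤ d i) (hd2 : d 0 ≤ 3 / 5)
    (hdec : ∀ (s : ℝ) (i : ℕ), 1 / 2 ^ (i + 1) < s → s ≤ 1 / 2 →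
      15 / 100 * s * d i ≤ s - (1 - gf p K (1 - s))) (a : ℕ) : ∀ h : ℕ,
    8 * ∑ i ∈ range (a + 1), 1 / d i ≤ h → 1 - hq p K h ≤ 1 / 2 ^ a := by
  have hdle : ∀ i, d i ≤ 3 / 5 := by
    intro i
    induction i with
    | zero => exact hd2
    | succ i ih => exact (hd1 i).trans ih
  have hs2 : ∀ h, 2 ≤ h → 1 - hq p K h ≤ 1 / 2 := by
    intro h hh
    have e1 : hq p K 2 ≤ hq p K h := hq_mono' hp hp1 hh
    have e2 : p 0 ≤ hq p K 1 := by
      have := gf_ge (K := K) hp hK (le_refl (0 : ℝ))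
      rw [mul_zero, add_zero] at this
      exact this
    have e3 : p 0 + p 1 * hq p K 1 ≤ hq p K 2 := gf_ge hp hK (hq_mem hp hp1 1).1
    nlinarith
  induction a with
  | zero =>
    intro h _
    have := (hq_mem hp hp1 h).1
    simp
    exact this
  | succ a ih =>
    intro h hh
    rw [Finset.sum_range_succ] at hh
    have hda := hd0 a
    have hda1 := hd0 (a + 1)
    have e0 : 1 / d a ≤ 1 / d (a + 1) := one_div_le_one_div_of_le hda1 (hd1 a)
    have e1 : 5 / 3 ≤ 1 / d a := by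
      rw [le_div_iff₀ hda]
      have := hdle a
      linarith
    have e5 : 0 ≤ ∑ i ∈ range (a + 1), 1 / d i :=
      Finset.sum_nonneg fun i _ => (one_div_pos.2 (hd0 i)).le
    rcases Nat.eq_zero_or_pos a with ha | ha
    · subst ha
      have : 2 ≤ h := by
        have : (2 : ℝ) ≤ h := by linarith
        exact_mod_cast this
      simpa using hs2 h this
    set S := 8 * ∑ i ∈ range (a + 1), 1 / d i with hS
    have hS0 : 0 ≤ S := by positivity
    set g := ⌈S⌉₊ with hg
    have g1 : S ≤ g := Nat.le_ceil S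
    have g2 : (g : ℝ) < S + 1 := Nat.ceil_lt_add_one hS0
    have i1 := ih g g1
    have g3 : g ≤ h := by
      have : (g : ℝ) ≤ h := by linarith
      exact_mod_cast this
    by_contra hcon
    push Not at hcon
    -- all the values before `h` are large
    have key : ∀ j : ℕ, g + j ≤ h →
        1 - hq p K (g + j) ≤ 1 / 2 ^ a - j * (15 / 100 * (1 / 2 ^ (a + 1)) * d a) := by
      intro j
      induction j with
      | zero => intro _; simpa using i1
      | succ j ihj =>
        intro hj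
        have k1 := ihj (by omega)
        have k2 : 1 / 2 ^ (a + 1) < 1 - hq p K (g + j) := by
          have := hq_mono' hp hp1 (show g + j ≤ h by omega)
          linarith
        have k3 : 1 - hq p K (g + j) ≤ 1 / 2 := by
          have e6 : 1 - hq p K (g + j) ≤ 1 / 2 ^ a := by
            have := hq_mono' hp hp1 (show g ≤ g + j by omega)
            linarith
          refine e6.trans ?_
          have : (2 : ℝ) ^ 1 ≤ 2 ^ a := pow_le_pow_right₀ (by norm_num) ha
          exact one_div_le_one_div_of_le (by norm_num) (by simpa using this)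
        have k4 := hdec (1 - hq p K (g + j)) a k2 k3
        rw [sub_sub_cancel] at k4
        have k5 : hq p K (g + (j + 1)) = gf p K (hq p K (g + j)) := rfl
        rw [k5]
        have k6 : 15 / 100 * (1 / 2 ^ (a + 1)) * d a ≤ 15 / 100 * (1 - hq p K (g + j)) * d a := by
          have := mul_le_mul_of_nonneg_right k2.le hda.le
          nlinarith
        push_cast
        nlinarith
    have k1 := key (h - g) (by omega)
    rw [show g + (h - g) = h by omega] at k1
    have k2 : (8 / d a - 1) ≤ ((h - g : ℕ) : ℝ) := by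
      rw [Nat.cast_sub g3]
      have : 8 * (1 / d (a + 1)) ≥ 8 * (1 / d a) := by linarith
      have e7 : 8 / d a = 8 * (1 / d a) := by ring
      rw [e7]
      linarith
    have k3 : (0 : ℝ) < 1 / 2 ^ (a + 1) := by positivity
    have k4 : (1 : ℝ) / 2 ^ a = 2 * (1 / 2 ^ (a + 1)) := by
      rw [pow_succ]; field_simp
    have k5 : (8 / d a - 1) * (15 / 100 * (1 / 2 ^ (a + 1)) * d a) ≤
        ((h - g : ℕ) : ℝ) * (15 / 100 * (1 / 2 ^ (a + 1)) * d a) :=
      mul_le_mul_of_nonneg_right k2 (by positivity)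
    have k6 : (8 / d a - 1) * (15 / 100 * (1 / 2 ^ (a + 1)) * d a) =
        (8 - d a) * (15 / 100) * (1 / 2 ^ (a + 1)) := by
      field_simp
    have k7 := hdle a
    nlinarith

/-- the piecewise linear function of the `i`-th scale -/
noncomputable def BH.cl (i : ℕ) (s : ℝ) : ℝ := min 1 (max 0 ((1 / 2 ^ i - s) * 2 ^ (i + 1)))

theorem BH.cl_le_one (i : ℕ) (s : ℝ) : BH.cl i s ≤ 1 := min_le_left _ _
theorem BH.cl_nonneg (i : ℕ) (s : ℝ) : 0 ≤ BH.cl i s := le_min zero_le_one (le_max_left _ _)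

theorem BH.cl_one (i : ℕ) (s : ℝ) (hs : s ≤ 1 / 2 ^ (i + 1)) : BH.cl i s = 1 := by
  unfold BH.cl
  refine min_eq_left (le_trans ?_ (le_max_right _ _))
  have h1 : (0 : ℝ) < 2 ^ (i + 1) := by positivity
  rw [le_div_iff₀ h1] at hs
  have h2 : (1 : ℝ) / 2 ^ i * 2 ^ (i + 1) = 2 := by rw [pow_succ]; field_simp
  nlinarith

theorem BH.cl_zero (i : ℕ) (s : ℝ) (hs : 1 / 2 ^ i ≤ s) : BH.cl i s = 0 := by
  unfold BH.cl
  have h1 : (0 : ℝ) < 2 ^ (i + 1) := by positivity
  rw [max_eq_left (mul_nonpos_of_nonpos_of_nonneg (by linarith) h1.le)]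
  exact min_eq_right zero_le_one

theorem BH.cl_diff (i : ℕ) (s s' : ℝ) (hs : s' ≤ s) :
    BH.cl i s' - BH.cl i s ≤ (s - s') * 2 ^ (i + 1) := by
  have h1 : (0 : ℝ) < 2 ^ (i + 1) := by positivity
  unfold BH.cl
  have h2 : (1 / 2 ^ i - s') * 2 ^ (i + 1) = (1 / 2 ^ i - s) * 2 ^ (i + 1) +
    (s - s') * (2 : ℝ) ^ (i + 1) := by ring
  have h3 : 0 ≤ (s - s') * (2 : ℝ) ^ (i + 1) := mul_nonneg (by linarith) h1.le
  rw [h2]
  generalize (1 / 2 ^ i - s) * (2 : ℝ) ^ (i + 1) = A at *
  generalize (s - s') * (2 : ℝ) ^ (i + 1) = B at *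
  rcases le_total 0 A with hA | hA <;> rcases le_total 1 A with hA1 | hA1 <;>
    rcases le_total 0 (A + B) with hB | hB <;> rcases le_total 1 (A + B) with hB1 | hB1 <;>
    simp only [max_eq_left, max_eq_right, min_eq_left, min_eq_right, hA, hA1, hB, hB1] <;>
    first
      | linarith
      | (simp; linarith)

/-- one step of the potential -/
theorem BH.step (d : ℕ → ℝ) (hd0 : ∀ i, 0 < d i) (hd1 : ∀ i, d i ≤ (1 + 1 / 250) * d (i + 1))
    (hd2 : 2 / 5 ≤ d 0) (a : ℕ) (s s' : ℝ) (hs0 : 0 < s) (hs1 : s ≤ 1) (hs' : s' ≤ s)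
    (hs2 : 39 / 100 * s ≤ s')
    (hdec : ∀ i : ℕ, s ≤ 1 / 2 ^ i → 2 ≤ i → s - s' ≤ 12 / 5 * s * d i) :
    ∑ i ∈ range a, 1 / d i * BH.cl i s' ≤ ∑ i ∈ range a, 1 / d i * BH.cl i s + 35 := by
  by_cases hs4 : s ≤ 1 / 4
  · obtain ⟨A, hA1, hA2⟩ := exists_nat_pow_near_of_lt_one hs0 hs1
      (show (0 : ℝ) < 1 / 2 by norm_num) (by norm_num)
    rw [one_div_pow] at hA1 hA2
    have hA : 2 ≤ A := by
      by_contra hc
      have : A + 1 ≤ 2 := by omega
      have h3 : (1 : ℝ) / 2 ^ 2 ≤ 1 / 2 ^ (A + 1) :=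
        one_div_le_one_div_of_le (by positivity) (pow_le_pow_right₀ (by norm_num) this)
      norm_num at h3 hA1 hs4
      linarith
    have hdA := hdec A hA2 hA
    have p1 : (0 : ℝ) < 2 ^ A := by positivity
    have p2 : s * 2 ^ A ≤ 1 := by rwa [le_div_iff₀ p1] at hA2
    have q0 := hd0 A
    have q1 := hd0 (A + 1)
    have q2 := hd0 (A + 2)
    have r1 := hd1 A
    have r2 := hd1 (A + 1)
    have hterm : ∀ i ∈ range a, 1 / d i * BH.cl i s' ≤ 1 / d i * BH.cl i s +
        ((if i = A then 5 else 0) + (if i = A + 1 then 10 else 0) +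
          (if i = A + 2 then 20 else 0)) := by
      intro i _
      have hdi := hd0 i
      have hnn : (0 : ℝ) ≤ (if i = A then 5 else 0) + (if i = A + 1 then 10 else 0) +
          (if i = A + 2 then 20 else 0) := by split_ifs <;> norm_num
      have hgen : 1 / d i * BH.cl i s' ≤ 1 / d i * BH.cl i s +
          (12 / 5 * s * d A) * 2 ^ (i + 1) / d i := by
        have c1 := BH.cl_diff i s s' hs'
        have c2 : (s - s') * 2 ^ (i + 1) ≤ (12 / 5 * s * d A) * 2 ^ (i + 1) :=
          mul_le_mul_of_nonneg_right hdA (by positivity)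
        rw [one_div, inv_mul_eq_div, inv_mul_eq_div, ← add_div, div_le_div_iff_of_pos_right hdi]
        linarith
      by_cases h1 : i < A
      · have c1 : BH.cl i s = 1 := BH.cl_one i s (hA2.trans
          (one_div_le_one_div_of_le (by positivity) (pow_le_pow_right₀ (by norm_num) h1)))
        have c2 := BH.cl_le_one i s'
        have c3 : 1 / d i * BH.cl i s' ≤ 1 / d i * 1 :=
          mul_le_mul_of_nonneg_left c2 (one_div_pos.2 hdi).le
        rw [c1]
        linarith
      by_cases h2 : A + 3 ≤ i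
      · have c1 : BH.cl i s' = 0 := by
          apply BH.cl_zero
          have c2 : (1 : ℝ) / 2 ^ i ≤ 1 / 2 ^ (A + 3) :=
            one_div_le_one_div_of_le (by positivity) (pow_le_pow_right₀ (by norm_num) h2)
          have c3 : (1 : ℝ) / 2 ^ (A + 3) = 1 / 4 * (1 / 2 ^ (A + 1)) := by
            rw [show A + 3 = (A + 1) + 2 by ring, pow_add]; field_simp; norm_num
          linarith
        rw [c1, mul_zero]
        have c3 : 0 ≤ 1 / d i * BH.cl i s :=
          mul_nonneg (one_div_pos.2 hdi).le (BH.cl_nonneg i s)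
        linarith
      have h3 : i = A ∨ i = A + 1 ∨ i = A + 2 := by omega
      have hsn : 0 ≤ s * 2 ^ A := by positivity
      rcases h3 with rfl | rfl | rfl
      · have c4 : (12 / 5 * s * d i) * 2 ^ (i + 1) / d i ≤ 5 := by
          rw [div_le_iff₀ hdi, pow_succ]
          nlinarith
        simp only [if_true, show i ≠ i + 1 by omega, show i ≠ i + 2 by omega, if_false]
        linarith
      · have c4 : (12 / 5 * s * d A) * 2 ^ (A + 1 + 1) / d (A + 1) ≤ 10 := by
          rw [div_le_iff₀ hdi, pow_succ, pow_succ]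
          have c5 : s * 2 ^ A * d A ≤ 1 * ((1 + 1 / 250) * d (A + 1)) :=
            mul_le_mul p2 r1 q0.le zero_le_one
          linarith
        simp only [if_true, show A + 1 ≠ A by omega, show A + 1 ≠ A + 2 by omega, if_false]
        linarith
      · have c4 : (12 / 5 * s * d A) * 2 ^ (A + 2 + 1) / d (A + 2) ≤ 20 := by
          rw [div_le_iff₀ hdi, pow_succ, pow_add]
          have c6 : d A ≤ (1 + 1 / 250) * ((1 + 1 / 250) * d (A + 2)) := by
            simp only [show A + 1 + 1 = A + 2 by ring] at r2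
            linarith
          have c5 : s * 2 ^ A * d A ≤ 1 * ((1 + 1 / 250) * ((1 + 1 / 250) * d (A + 2))) :=
            mul_le_mul p2 c6 q0.le zero_le_one
          linarith
        simp only [if_true, show A + 2 ≠ A by omega, show A + 2 ≠ A + 1 by omega, if_false]
        linarith
    refine (Finset.sum_le_sum hterm).trans ?_
    rw [Finset.sum_add_distrib, Finset.sum_add_distrib, Finset.sum_add_distrib,
      Finset.sum_ite_eq', Finset.sum_ite_eq', Finset.sum_ite_eq']
    have : (if A ∈ range a then (5 : ℝ) else 0) ≤ 5 := by split_ifs <;> norm_num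
    have : (if A + 1 ∈ range a then (10 : ℝ) else 0) ≤ 10 := by split_ifs <;> norm_num
    have : (if A + 2 ∈ range a then (20 : ℝ) else 0) ≤ 20 := by split_ifs <;> norm_num
    linarith
  · push Not at hs4
    have h16 : 1 / 16 ≤ s' := by linarith
    have hn : 0 ≤ ∑ i ∈ range a, 1 / d i * BH.cl i s :=
      Finset.sum_nonneg fun i _ => mul_nonneg (one_div_pos.2 (hd0 i)).le (BH.cl_nonneg i s)
    have hterm : ∀ i ∈ range a, 1 / d i * BH.cl i s' ≤
        ((if i = 0 then 3 else 0) + (if i = 1 then 3 else 0) + (if i = 2 then 3 else 0) +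
          (if i = 3 then 3 else 0)) := by
      intro i _
      have hdi := hd0 i
      by_cases h2 : 4 ≤ i
      · have c1 : BH.cl i s' = 0 := by
          apply BH.cl_zero
          have c2 : (1 : ℝ) / 2 ^ i ≤ 1 / 2 ^ 4 :=
            one_div_le_one_div_of_le (by positivity) (pow_le_pow_right₀ (by norm_num) h2)
          norm_num at c2 h16 ⊢
          linarith
        rw [c1, mul_zero]
        split_ifs <;> norm_num
      · have c0 : 1 / 3 ≤ d i := by
          have d0 := hd1 0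
          have d1 := hd1 1
          have d2 := hd1 2
          norm_num at d0 d1 d2
          have h3 : i = 0 ∨ i = 1 ∨ i = 2 ∨ i = 3 := by omega
          rcases h3 with rfl | rfl | rfl | rfl <;> linarith
        have c1 : 1 / d i ≤ 3 := by
          rw [div_le_iff₀ hdi]; linarith
        have c2 : 1 / d i * BH.cl i s' ≤ 3 * 1 :=
          mul_le_mul c1 (BH.cl_le_one i s') (BH.cl_nonneg i s') (by norm_num)
        have h3 : i = 0 ∨ i = 1 ∨ i = 2 ∨ i = 3 := by omega
        refine c2.trans ?_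
        rcases h3 with rfl | rfl | rfl | rfl <;> norm_num
    have h3 := Finset.sum_le_sum hterm
    rw [Finset.sum_add_distrib, Finset.sum_add_distrib, Finset.sum_add_distrib,
      Finset.sum_ite_eq', Finset.sum_ite_eq', Finset.sum_ite_eq', Finset.sum_ite_eq'] at h3
    have : (if 0 ∈ range a then (3 : ℝ) else 0) ≤ 3 := by split_ifs <;> norm_num
    have : (if 1 ∈ range a then (3 : ℝ) else 0) ≤ 3 := by split_ifs <;> norm_num
    have : (if 2 ∈ range a then (3 : ℝ) else 0) ≤ 3 := by split_ifs <;> norm_num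
    have : (if 3 ∈ range a then (3 : ℝ) else 0) ≤ 3 := by split_ifs <;> norm_num
    linarith

/-- abstract lower bound -/
theorem BH.lower (p : ℕ → ℝ) (K : ℕ) (hp : ∀ k, 0 ≤ p k) (hp1 : ∑ k ∈ range K, p k = 1)
    (hK : 2 ≤ K) (h1 : 39 / 100 ≤ p 1) (d : ℕ → ℝ)
    (hd0 : ∀ i, 0 < d i) (hd1 : ∀ i, d i ≤ (1 + 1 / 250) * d (i + 1)) (hd2 : 2 / 5 ≤ d 0)
    (hdec : ∀ (s : ℝ) (i : ℕ), 0 < s → s ≤ 1 / 2 ^ i → 2 ≤ i →
      s - (1 - gf p K (1 - s)) ≤ 12 / 5 * s * d i) (a : ℕ) (h : ℕ)
    (hh : 80 * (h : ℝ) ≤ ∑ i ∈ range a, 1 / d i) : 1 / 2 ^ a ≤ 1 - hq p K h := by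
  have key : ∀ h : ℕ, ∑ i ∈ range a, 1 / d i * BH.cl i (1 - hq p K h) ≤ 35 * h := by
    intro h
    induction h with
    | zero =>
      refine le_of_eq ?_
      rw [Nat.cast_zero, mul_zero]
      refine Finset.sum_eq_zero fun i _ => ?_
      rw [BH.cl_zero, mul_zero]
      rw [show hq p K 0 = 0 from rfl, sub_zero]
      rw [div_le_one (by positivity)]
      exact one_le_pow₀ (by norm_num)
    | succ h ih =>
      have k1 := BH.s_pos p K hp hp1 hK h1 h
      have k2 := hq_mem hp hp1 h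
      have k3 := hq_mono hp hp1 h
      have k4 := one_sub_gf_ge hp hp1 hK k2.1 k2.2
      have k5 := BH.step d hd0 hd1 hd2 a (1 - hq p K h) (1 - hq p K (h + 1)) k1 (by linarith)
        (by linarith) (by rw [hq_succ]; nlinarith) (by
          intro i hi1 hi2
          have := hdec (1 - hq p K h) i k1 hi1 hi2
          rw [sub_sub_cancel] at this
          rw [hq_succ]
          exact this)
      push_cast
      linarith
  by_contra hcon
  push Not at hcon
  have k1 := key h
  have k2 : ∑ i ∈ range a, 1 / d i * BH.cl i (1 - hq p K h) = ∑ i ∈ range a, 1 / d i := by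
    refine Finset.sum_congr rfl fun i hi => ?_
    rw [BH.cl_one, mul_one]
    refine hcon.le.trans ?_
    exact one_div_le_one_div_of_le (by positivity)
      (pow_le_pow_right₀ (by norm_num) (Finset.mem_range.1 hi))
  rw [k2] at k1
  have k3 : (h : ℝ) ≤ 0 := by linarith
  have k4 : h = 0 := by
    have : h ≤ 0 := by exact_mod_cast k3
    omega
  subst k4
  rw [show hq p K 0 = 0 from rfl, sub_zero] at hcon
  have : (1 : ℝ) / 2 ^ a ≤ 1 := by
    rw [div_le_one (by positivity)]
    exact one_le_pow₀ (by norm_num)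
  linarith

end main

/-- H: distribution of the height for the law `w` tilted by `u`. -/
theorem hq_bounds (w : ℕ → ℝ) (K : ℕ) (hw : IsLaw w K) (hR : Reg w) (h0 : 2 / 5 ≤ w 0)
    (h1 : 2 / 5 ≤ w 1) (hε : 0 < epsL w K) (u : ℝ) (hu : 0 ≤ u) (hu1 : u ≤ 1 / 4000)
    (hflat : Fs w K (2 * u) ≤ 2 * epsL w K) (a h : ℕ) :
    (8 * ∑ i ∈ range (a + 1), 1 / Dp w (2 ^ i) ≤ h →
      1 - hq (tilt w K u) K h ≤ 1 / 2 ^ a) ∧
    (80 * (h : ℝ) ≤ ∑ i ∈ range a, 1 / Dp w (2 ^ i) →
      1 / 2 ^ a ≤ 1 - hq (tilt w K u) K h) := by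
  have hK := BH.two_le hw h1
  have hp := BH.tilt_nonneg hw hε u hu
  have hp1 := BH.tilt_one hw hε u hu
  have hg := BH.tilt_ge hw h0 h1 hε u hu hu1
  have hw0 : w 0 ≤ 3 / 5 := by
    have e1 : ∑ k ∈ range 2, w k ≤ ∑ k ∈ range K, w k :=
      Finset.sum_le_sum_of_subset_of_nonneg (fun k hk => by
        rw [Finset.mem_range] at hk ⊢; omega) fun k _ _ => hw.nonneg k
    rw [hw.one] at e1
    simp only [Finset.sum_range_succ, Finset.sum_range_zero, zero_add] at e1
    linarith
  constructor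
  · intro hh
    exact BH.upper _ K hp hp1 hK hg.1 hg.2 (fun i => Dp w (2 ^ i))
      (fun i => (BH.d_pos hw hR hε i).1) (fun i => (BH.d_pos hw hR hε i).2.1)
      (by simp only [BH.d_zero]; exact hw0)
      (fun s i hs hs1 => BH.dec_ge hw hR hε u hu hu1 s i hs hs1) a h hh
  · intro hh
    exact BH.lower _ K hp hp1 hK hg.2 (fun i => Dp w (2 ^ i))
      (fun i => (BH.d_pos hw hR hε i).1) (fun i => (BH.d_pos hw hR hε i).2.2)
      (by simp only [BH.d_zero]; exact h0)
      (fun s i hs0 hs hi => BH.dec_le hw hR h1 hε u hu hflat s i hs0 hs hi) a h hh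

end HW
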