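import Pool.Agent.Helper55.HW.CD

/-! Marked vertices of trees: block CG of MP_074879_pr. -/

open Finset

namespace HW

/-! #### CG: marked vertices -/

/-- forest with a marked vertex -/
inductive MF : Type
  | here (c s : Forest) : MF          -- the root of the first tree is marked
  | inC (m : MF) (s : Forest) : MF    -- marked vertex strictly inside the first tree
  | inS (c : Forest) (m : MF) : MF    -- marked vertex in the other trees

namespace MF
def plug : MF → Forest
  | here c s => .cons c s
  | inC m s => .cons m.plug s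
  | inS c m => .cons c m.plug
/-- degree of the marked vertex -/
def deg : MF → ℕ
  | here c _ => c.len
  | inC m _ => m.deg
  | inS _ m => m.deg
/-- letters before the marked vertex in the dfs word -/
def aw : MF → List ℕ
  | here _ _ => []
  | inC m _ => m.plug.len :: m.aw
  | inS c m => (c.len :: c.dfw) ++ m.aw
/-- children of the marked vertex, then the trees to the right of its ancestral line -/
def rgt : MF → Forest
  | here c s => c.app s
  | inC m s => m.rgt.app s
  | inS _ m => m.rgt
def dep : MF → ℕ
  | here _ _ => 0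
  | inC m _ => m.dep + 1
  | inS _ m => m.dep
end MF

namespace CG

theorem dfw_app (F G : Forest) : (F.app G).dfw = F.dfw ++ G.dfw := by
  induction F with
  | nil => rfl
  | cons c s _ ih => simp only [Forest.app, Forest.dfw, ih, List.append_assoc, List.cons_append]

theorem len_app (F G : Forest) : (F.app G).len = F.len + G.len := by
  induction F with
  | nil => simp [Forest.app, Forest.len]
  | cons c s _ ih => simp only [Forest.app, Forest.len, ih]; omega

theorem vert_app (F G : Forest) : (F.app G).vert = F.vert + G.vert := by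
  induction F with
  | nil => simp [Forest.app, Forest.vert]
  | cons c s _ ih => simp only [Forest.app, Forest.vert, ih]; omega

theorem ht_app (F G : Forest) : (F.app G).ht = max F.ht G.ht := by
  induction F with
  | nil => simp [Forest.app, Forest.ht]
  | cons c s _ ih => simp only [Forest.app, Forest.ht, ih]; omega

theorem app_nil (F : Forest) : F.app .nil = F := by
  induction F with
  | nil => rfl
  | cons c s _ ih => simp only [Forest.app, ih]

theorem app_assoc (F G H : Forest) : (F.app G).app H = F.app (G.app H) := by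
  induction F with
  | nil => rfl
  | cons c s _ ih => simp only [Forest.app, ih]

theorem len_mir (F : Forest) : F.mir.len = F.len := by
  induction F with
  | nil => rfl
  | cons c s _ ih => simp only [Forest.mir, len_app, Forest.len, ih]

theorem vert_mir (F : Forest) : F.mir.vert = F.vert := by
  induction F with
  | nil => rfl
  | cons c s ihc ih => simp only [Forest.mir, vert_app, Forest.vert, ih, ihc]; omega

theorem ht_mir (F : Forest) : F.mir.ht = F.ht := by
  induction F with
  | nil => rfl
  | cons c s ihc ih => simp only [Forest.mir, ht_app, Forest.ht, ih, ihc]; omega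

theorem mir_app (F G : Forest) : (F.app G).mir = G.mir.app F.mir := by
  induction F with
  | nil => simp [Forest.app, Forest.mir, app_nil]
  | cons c s _ ih => simp only [Forest.app, Forest.mir, ih, app_assoc]

theorem mir_mir (F : Forest) : F.mir.mir = F := by
  induction F with
  | nil => rfl
  | cons c s ihc ih => simp only [Forest.mir, mir_app, Forest.app, ih, ihc]

theorem dfw_mir_perm (F : Forest) : F.mir.dfw.Perm F.dfw := by
  induction F with
  | nil => exact List.Perm.refl _
  | cons c s ihc ih =>
    simp only [Forest.mir, dfw_app, Forest.dfw, List.append_nil, len_mir]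
    refine List.perm_append_comm.trans ?_
    simp only [List.cons_append]
    exact List.Perm.cons _ (ihc.append ih)

theorem ht_le_vert (F : Forest) : F.ht ≤ F.vert := by
  induction F with
  | nil => exact le_refl _
  | cons c s ihc ih => simp only [Forest.ht, Forest.vert]; omega

theorem lev_eq_zero (F : Forest) : ∀ k, F.ht ≤ k → F.lev k = 0 := by
  induction F with
  | nil => intro k _; rfl
  | cons c s ihc ih =>
    intro k hk
    simp only [Forest.ht] at hk
    cases k with
    | zero => omega
    | succ k => simp only [Forest.lev]; rw [ihc k (by omega), ih (k + 1) (by omega)]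

theorem lev_zero (F : Forest) : F.lev 0 = F.len := by
  induction F with
  | nil => rfl
  | cons c s ihc ih => simp only [Forest.lev, Forest.len, ih]

theorem lev_le_wid (F : Forest) (k : ℕ) : F.lev k ≤ wid F := by
  by_cases hk : k < F.vert
  · exact Finset.le_sup (f := F.lev) (Finset.mem_range.2 hk)
  · rw [lev_eq_zero F k (by have := ht_le_vert F; omega)]
    exact Nat.zero_le _

end CG

open CG

theorem mf_dfw (m : MF) : m.plug.dfw = m.aw ++ m.deg :: m.rgt.dfw := by
  induction m with
  | here c s => simp [MF.plug, MF.aw, MF.deg, MF.rgt, Forest.dfw, dfw_app]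
  | inC m s ih => simp [MF.plug, MF.aw, MF.deg, MF.rgt, Forest.dfw, dfw_app, ih]
  | inS c m ih => simp [MF.plug, MF.aw, MF.deg, MF.rgt, Forest.dfw, ih]

theorem mf_exists (F : Forest) (i : ℕ) (hi : i < F.vert) :
    ∃ m : MF, m.plug = F ∧ m.aw.length = i := by
  induction F generalizing i with
  | nil => simp [Forest.vert] at hi
  | cons c s ihc ih =>
    simp only [Forest.vert] at hi
    rcases Nat.eq_zero_or_pos i with h0 | h0
    · exact ⟨.here c s, rfl, h0.symm⟩
    · by_cases h1 : i ≤ c.vert
      · obtain ⟨m, hm, hl⟩ := ihc (i - 1) (by omega)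
        refine ⟨.inC m s, by simp [MF.plug, hm], ?_⟩
        simp only [MF.aw, List.length_cons, hl]
        omega
      · obtain ⟨m, hm, hl⟩ := ih (i - 1 - c.vert) (by omega)
        refine ⟨.inS c m, by simp [MF.plug, hm], ?_⟩
        simp only [MF.aw, List.length_cons, List.length_append, hl, dfw_length]
        omega

theorem mf_aw_lt (m : MF) : m.aw.length < m.plug.vert := by
  have h := congrArg List.length (mf_dfw m)
  rw [dfw_length] at h
  simp only [List.length_append, List.length_cons] at h
  omega

theorem mf_unique (m : MF) : ∀ m' : MF, m.plug = m'.plug → m.aw.length = m'.aw.length → m = m' := by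
  induction m with
  | here c s =>
    intro m' h1 h2
    cases m' with
    | here c' s' => simp only [MF.plug, Forest.cons.injEq] at h1; rw [h1.1, h1.2]
    | inC m' s' => simp [MF.aw] at h2
    | inS c' m' => simp [MF.aw] at h2
  | inC m s ih =>
    intro m' h1 h2
    cases m' with
    | here c' s' => simp [MF.aw] at h2
    | inC m' s' =>
      simp only [MF.plug, Forest.cons.injEq] at h1
      simp only [MF.aw, List.length_cons, add_left_inj] at h2
      rw [ih m' h1.1 h2, h1.2]
    | inS c' m' =>
      simp only [MF.plug, Forest.cons.injEq] at h1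
      simp only [MF.aw, List.length_cons, List.length_append, dfw_length] at h2
      have h3 := mf_aw_lt m
      rw [h1.1] at h3
      omega
  | inS c m ih =>
    intro m' h1 h2
    cases m' with
    | here c' s' => simp [MF.aw] at h2
    | inC m' s' =>
      simp only [MF.plug, Forest.cons.injEq] at h1
      simp only [MF.aw, List.length_cons, List.length_append, dfw_length] at h2
      have h3 := mf_aw_lt m'
      rw [← h1.1] at h3
      omega
    | inS c' m' =>
      simp only [MF.plug, Forest.cons.injEq] at h1
      simp only [MF.aw, List.length_cons, List.length_append, dfw_length, h1.1] at h2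
      rw [ih m' h1.2 (by omega), h1.1]

/-! #### mirror images of marked forests -/

namespace MF

def lapp : Forest → MF → MF
  | .nil, m => m
  | .cons c s, m => .inS c (lapp s m)

def rapp : MF → Forest → MF
  | here c s, t => .here c (s.app t)
  | inC m s, t => .inC m (s.app t)
  | inS c m, t => .inS c (rapp m t)

def mir : MF → MF
  | here c s => lapp s.mir (.here c.mir .nil)
  | inC m s => lapp s.mir (.inC m.mir .nil)
  | inS c m => rapp m.mir (.cons c.mir .nil)

/-- the forest of the children of the marked vertex -/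
def chl : MF → Forest
  | here c _ => c
  | inC m _ => m.chl
  | inS _ m => m.chl

theorem plug_lapp (F : Forest) (m : MF) : (lapp F m).plug = F.app m.plug := by
  induction F with
  | nil => rfl
  | cons c s _ ih => simp only [lapp, plug, Forest.app, ih]

theorem deg_lapp (F : Forest) (m : MF) : (lapp F m).deg = m.deg := by
  induction F with
  | nil => rfl
  | cons c s _ ih => simp only [lapp, deg, ih]

theorem rgt_lapp (F : Forest) (m : MF) : (lapp F m).rgt = m.rgt := by
  induction F with
  | nil => rfl
  | cons c s _ ih => simp only [lapp, rgt, ih]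

theorem plug_rapp (m : MF) (t : Forest) : (rapp m t).plug = m.plug.app t := by
  induction m with
  | here c s => rfl
  | inC m s ih => rfl
  | inS c m ih => simp only [rapp, plug, Forest.app, ih]

theorem deg_rapp (m : MF) (t : Forest) : (rapp m t).deg = m.deg := by
  induction m with
  | here c s => rfl
  | inC m s ih => rfl
  | inS c m ih => simp only [rapp, deg, ih]

theorem rgt_rapp (m : MF) (t : Forest) : (rapp m t).rgt = m.rgt.app t := by
  induction m with
  | here c s => simp only [rapp, rgt, app_assoc]
  | inC m s ih => simp only [rapp, rgt, app_assoc]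
  | inS c m ih => simp only [rapp, rgt, ih]

theorem plug_mir (m : MF) : m.mir.plug = m.plug.mir := by
  induction m with
  | here c s => simp only [mir, plug_lapp, plug, Forest.mir]
  | inC m s ih => simp only [mir, plug_lapp, plug, Forest.mir, ih]
  | inS c m ih => simp only [mir, plug_rapp, plug, Forest.mir, ih]

theorem deg_mir (m : MF) : m.mir.deg = m.deg := by
  induction m with
  | here c s => simp only [mir, deg_lapp, deg, len_mir]
  | inC m s ih => simp only [mir, deg_lapp, deg, ih]
  | inS c m ih => simp only [mir, deg_rapp, deg, ih]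

theorem rapp_nil (m : MF) : rapp m .nil = m := by
  induction m with
  | here c s => simp only [rapp, app_nil]
  | inC m s ih => simp only [rapp, app_nil]
  | inS c m ih => simp only [rapp, ih]

theorem rapp_rapp (m : MF) (s t : Forest) : rapp (rapp m s) t = rapp m (s.app t) := by
  induction m with
  | here c s => simp only [rapp, app_assoc]
  | inC m s ih => simp only [rapp, app_assoc]
  | inS c m ih => simp only [rapp, ih]

theorem mir_lapp (F : Forest) (m : MF) : (lapp F m).mir = rapp m.mir F.mir := by
  induction F with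
  | nil => simp only [lapp, Forest.mir, rapp_nil]
  | cons c s _ ih => simp only [lapp, mir, ih, Forest.mir, rapp_rapp]

theorem lapp_lapp (F G : Forest) (m : MF) : lapp F (lapp G m) = lapp (F.app G) m := by
  induction F with
  | nil => rfl
  | cons c s _ ih => simp only [lapp, Forest.app, ih]

theorem mir_rapp (m : MF) (t : Forest) : (rapp m t).mir = lapp t.mir m.mir := by
  induction m with
  | here c s => simp only [rapp, mir, mir_app, lapp_lapp]
  | inC m s ih => simp only [rapp, mir, mir_app, lapp_lapp]
  | inS c m ih =>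
    simp only [rapp, mir, ih]
    clear ih
    generalize m.mir = x
    induction t.mir with
    | nil => rfl
    | cons a b _ ih => simp only [lapp, rapp, ih]

theorem mir_mir (m : MF) : m.mir.mir = m := by
  induction m with
  | here c s => simp only [mir, mir_lapp, rapp, Forest.mir, lapp, CG.mir_mir, Forest.app]
  | inC m s ih => simp only [mir, mir_lapp, rapp, Forest.mir, lapp, CG.mir_mir, Forest.app, ih]
  | inS c m ih =>
    simp only [mir, mir_rapp, Forest.mir, lapp, CG.mir_mir, Forest.app, ih]

theorem len_chl (m : MF) : m.chl.len = m.deg := by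
  induction m with
  | here c s => rfl
  | inC m s ih => exact ih
  | inS c m ih => exact ih

theorem ht_chl (m : MF) : m.chl.ht + 1 ≤ m.plug.ht := by
  induction m with
  | here c s => simp only [chl, plug, Forest.ht]; omega
  | inC m s ih => simp only [chl, plug, Forest.ht]; omega
  | inS c m ih => simp only [chl, plug, Forest.ht]; omega

theorem rgt_chl (m : MF) : ∃ G : Forest, m.rgt = m.chl.app G := by
  induction m with
  | here c s => exact ⟨s, rfl⟩
  | inC m s ih =>
    obtain ⟨G, hG⟩ := ih
    exact ⟨G.app s, by simp only [rgt, chl, hG, app_assoc]⟩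
  | inS c m ih => exact ih

theorem deg_le_lev (m : MF) : m.deg ≤ m.plug.lev (m.dep + 1) := by
  induction m with
  | here c s => simp only [deg, plug, dep, Forest.lev, lev_zero]; omega
  | inC m s ih => simp only [deg, plug, dep, Forest.lev]; omega
  | inS c m ih => simp only [deg, plug, dep, Forest.lev]; omega

theorem ht_le (m : MF) : m.plug.ht ≤ m.dep + 1 + max m.rgt.ht m.mir.rgt.ht := by
  induction m with
  | here c s => simp only [plug, dep, rgt, Forest.ht, ht_app]; omega
  | inC m s ih =>
    simp only [plug, dep, rgt, mir, rgt_lapp, Forest.ht, ht_app]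
    omega
  | inS c m ih =>
    simp only [plug, dep, rgt, mir, rgt_rapp, Forest.ht, ht_app, ht_mir]
    omega

theorem len_pos (m : MF) : 1 ≤ m.plug.len := by
  cases m <;> simp only [plug, Forest.len] <;> omega

end MF

/-! #### ancestors of the marked vertex -/

namespace CG


theorem nns_le_cons (a : ℕ) (l : List ℕ) : nns l ≤ nns (a :: l) := by
  classical
  unfold nns
  refine Finset.card_le_card_of_injOn (fun i => i + 1) ?_ (fun x _ y _ h => by simpa using h)
  intro i hi
  simp only [Finset.coe_filter, Finset.mem_range, Set.mem_ofPred_eq] at hi ⊢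
  refine ⟨by simpa using hi.1, ?_⟩
  intro j hj
  rw [List.drop_succ_cons] at hj ⊢
  exact hi.2 j hj

theorem nns_cons_good (a : ℕ) (l : List ℕ)
    (hg : ∀ j ≤ (a :: l).length, 0 ≤ stp ((a :: l).take j)) : nns l + 1 ≤ nns (a :: l) := by
  classical
  unfold nns
  set P : ℕ → Prop := fun i => ∀ j ≤ ((a :: l).drop i).length, 0 ≤ stp (((a :: l).drop i).take j)
  set Q : ℕ → Prop := fun i => ∀ j ≤ (l.drop i).length, 0 ≤ stp ((l.drop i).take j)
  have h1 : insert 0 (((range l.length).filter Q).image (fun i => i + 1)) ⊆
      (range (a :: l).length).filter P := by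
    intro i hi
    rw [Finset.mem_insert] at hi
    rcases hi with rfl | hi
    · rw [Finset.mem_filter, Finset.mem_range]
      exact ⟨by simp, hg⟩
    · rw [Finset.mem_image] at hi
      obtain ⟨i', hi', rfl⟩ := hi
      rw [Finset.mem_filter, Finset.mem_range] at hi' ⊢
      refine ⟨by simpa using hi'.1, ?_⟩
      intro j hj
      rw [List.drop_succ_cons] at hj ⊢
      exact hi'.2 j hj
  have h2 := Finset.card_le_card h1
  rw [Finset.card_insert_of_notMem (by simp),
    Finset.card_image_of_injective _ (add_left_injective 1)] at h2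
  exact h2

theorem nns_le_append (u v : List ℕ) : nns v ≤ nns (u ++ v) := by
  induction u with
  | nil => exact le_refl _
  | cons a u ih => exact ih.trans (nns_le_cons a (u ++ v))

theorem stp_cons (a : ℕ) (l : List ℕ) : stp (a :: l) = (a : ℤ) - 1 + stp l := by
  simp [stp]

end CG

theorem dep_le_nns_aw (m : MF) : m.dep ≤ nns m.aw := by
  induction m with
  | here c s => exact Nat.zero_le _
  | inC m s ih =>
    simp only [MF.dep, MF.aw]
    refine le_trans (Nat.succ_le_succ ih) (nns_cons_good _ _ ?_)
    intro j hj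
    cases j with
    | zero => simp [stp]
    | succ j =>
      rw [List.take_succ_cons, stp_cons]
      have h1 : m.aw.take j = m.plug.dfw.take j := by
        rw [mf_dfw, List.take_append_of_le_length]
        simpa using hj
      have h2 := mf_aw_lt m
      have h3 : j < m.plug.vert := by
        simp only [List.length_cons] at hj
        omega
      have h4 := stp_dfw_take m.plug j h3
      rw [h1]
      omega
  | inS c m ih =>
    simp only [MF.dep, MF.aw]
    exact ih.trans (nns_le_append _ _)

/-! #### sums over marked trees -/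

/-- the rotation of the depth first word which starts at the marked vertex -/
def MF.wd (m : MF) : List ℕ := m.deg :: (m.rgt.dfw ++ m.aw)

namespace CG

theorem rotate_eq_wd (m : MF) : m.plug.dfw.rotate m.aw.length = m.wd := by
  rw [mf_dfw, List.rotate_append_length_eq]
  rfl

open Classical in
/-- the marked forest with given forest and given position of the mark -/
noncomputable def mkd (T : Forest) (i : ℕ) : MF :=
  if h : i < T.vert then (mf_exists T i h).choose else MF.here .nil .nil

theorem mkd_spec (T : Forest) (i : ℕ) (h : i < T.vert) :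
    (mkd T i).plug = T ∧ (mkd T i).aw.length = i := by
  rw [mkd, dif_pos h]
  exact (mf_exists T i h).choose_spec

theorem mkd_eq (m : MF) : mkd m.plug m.aw.length = m := by
  have h := mkd_spec m.plug m.aw.length (mf_aw_lt m)
  exact mf_unique _ _ h.1 h.2

/-- sum over the marked trees with `n` vertices -/
noncomputable def Sg (n : ℕ) (g : MF → ℝ) : ℝ := ∑ T ∈ trees n, ∑ i ∈ range n, g (mkd T i)

theorem Sg_le (n : ℕ) (g g' : MF → ℝ) (h : ∀ m : MF, m.plug ∈ trees n → g m ≤ g' m) :
    Sg n g ≤ Sg n g' := by
  unfold Sg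
  refine Finset.sum_le_sum fun T hT => Finset.sum_le_sum fun i hi => h _ ?_
  have h1 := (mem_trees n T).1 hT
  rw [(mkd_spec T i (by rw [h1.2]; exact Finset.mem_range.1 hi)).1]
  exact hT

theorem Sg_add (n : ℕ) (g g' : MF → ℝ) : Sg n (fun m => g m + g' m) = Sg n g + Sg n g' := by
  unfold Sg
  simp only [Finset.sum_add_distrib]

theorem Sg_mir (n : ℕ) (g : MF → ℝ) : Sg n (fun m => g m.mir) = Sg n g := by
  unfold Sg
  rw [← Finset.sum_product', ← Finset.sum_product']
  have key : ∀ a ∈ trees n ×ˢ range n,
      ((mkd a.1 a.2).mir.plug, (mkd a.1 a.2).mir.aw.length) ∈ trees n ×ˢ range n := by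
    intro a ha
    rw [Finset.mem_product] at ha ⊢
    have h1 := (mem_trees n a.1).1 ha.1
    have h2 := mkd_spec a.1 a.2 (by rw [h1.2]; exact Finset.mem_range.1 ha.2)
    have h3 : (mkd a.1 a.2).mir.plug.vert = n := by
      rw [MF.plug_mir, h2.1, vert_mir, h1.2]
    constructor
    · rw [mem_trees]
      refine ⟨?_, h3⟩
      rw [MF.plug_mir, h2.1, len_mir, h1.1]
    · rw [Finset.mem_range]
      have := mf_aw_lt (mkd a.1 a.2).mir
      simp only
      omega
  refine Finset.sum_bij' (fun a _ => ((mkd a.1 a.2).mir.plug, (mkd a.1 a.2).mir.aw.length))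
    (fun a _ => ((mkd a.1 a.2).mir.plug, (mkd a.1 a.2).mir.aw.length)) key key ?_ ?_ ?_
  · intro a ha
    rw [Finset.mem_product] at ha
    have h1 := (mem_trees n a.1).1 ha.1
    have h2 := mkd_spec a.1 a.2 (by rw [h1.2]; exact Finset.mem_range.1 ha.2)
    simp only [mkd_eq, MF.mir_mir]
    rw [h2.1, h2.2]
  · intro a ha
    rw [Finset.mem_product] at ha
    have h1 := (mem_trees n a.1).1 ha.1
    have h2 := mkd_spec a.1 a.2 (by rw [h1.2]; exact Finset.mem_range.1 ha.2)
    simp only [mkd_eq, MF.mir_mir]
    rw [h2.1, h2.2]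
  · intro a ha
    simp only [mkd_eq]

theorem E_congr (p : ℕ → ℝ) (K N : ℕ) (F G : List ℕ → ℝ) (h : ∀ x, F x = G x) :
    E p K N F = E p K N G := by
  rw [show F = G from funext h]

theorem E_smul (p : ℕ → ℝ) (K : ℕ) (c : ℝ) (N : ℕ) : ∀ F : List ℕ → ℝ,
    E p K N (fun x => c * F x) = c * E p K N F := by
  induction N with
  | zero => intro F; rfl
  | succ N ih =>
    intro F
    simp only [E]
    rw [Finset.mul_sum]
    refine Finset.sum_congr rfl fun a _ => ?_
    rw [ih (fun l => F (a :: l))]
    ring

open Classical in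
/-- the weight of a word in the event `B` -/
noncomputable def Ph (γ p : ℕ → ℝ) (B : ℕ → List ℕ → Prop) : List ℕ → ℝ
  | [] => 0
  | k :: y => if B k y then γ k * (y.map p).prod else 0

theorem Sg_Ph (n K : ℕ) (hn : 1 ≤ n) (hK : n ≤ K) (γ p : ℕ → ℝ) (B : ℕ → List ℕ → Prop) :
    Sg n (fun m => Ph γ p B m.wd) =
      ∑ k ∈ range K, γ k * Pr p K (n - 1) (fun y => stp y = -(k : ℤ) ∧ B k y) := by
  classical
  have h1 : Sg n (fun m => Ph γ p B m.wd) =
      ∑ T ∈ trees n, ∑ i ∈ range n, Ph γ p B (T.dfw.rotate i) := by
    unfold Sg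
    refine Finset.sum_congr rfl fun T hT => Finset.sum_congr rfl fun i hi => ?_
    have h1 := (mem_trees n T).1 hT
    have h2 := mkd_spec T i (by rw [h1.2]; exact Finset.mem_range.1 hi)
    simp only []
    rw [← rotate_eq_wd, h2.1, h2.2]
  rw [h1, sum_rotate_eq n K hn hK]
  obtain ⟨n, rfl⟩ : ∃ n', n = n' + 1 := ⟨n - 1, by omega⟩
  simp only [E, one_mul, Nat.add_sub_cancel]
  refine Finset.sum_congr rfl fun k _ => ?_
  unfold Pr
  rw [← E_one_prod p, ← E_smul]
  refine E_congr _ _ _ _ _ fun y => ?_
  have h2 : stp (k :: y) = -1 ↔ stp y = -(k : ℤ) := by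
    rw [stp_cons]
    constructor <;> intro h <;> omega
  by_cases h3 : stp y = -(k : ℤ)
  · rw [if_pos (h2.2 h3)]
    by_cases h4 : B k y
    · rw [if_pos ⟨h3, h4⟩]
      simp only [Ph, if_pos h4]
      ring
    · rw [if_neg (fun h => h4 h.2)]
      simp only [Ph, if_neg h4]
      ring
  · rw [if_neg (fun h => h3 (h2.1 h)), if_neg (fun h => h3 h.1)]
    ring

open Classical in
theorem TM_eq_Sg (n : ℕ) (γ p : ℕ → ℝ) (A : Forest → Prop) :
    TM n γ p A = Sg n (fun m => if A m.plug then Wt γ p m.wd else 0) := by
  unfold TM Sg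
  refine Finset.sum_congr rfl fun T hT => ?_
  have h1 := (mem_trees n T).1 hT
  rw [symsum_eq, dfw_length, h1.2]
  have h3 : ∀ i ∈ range n, (if A (mkd T i).plug then Wt γ p (mkd T i).wd else 0) =
      if A T then Wt γ p (T.dfw.rotate i) else 0 := by
    intro i hi
    have h2 := mkd_spec T i (by rw [h1.2]; exact Finset.mem_range.1 hi)
    rw [← rotate_eq_wd, h2.1, h2.2]
  rw [Finset.sum_congr rfl h3]
  split_ifs with hA
  · rfl
  · simp

theorem Wt_mir (γ p : ℕ → ℝ) (m : MF) : Wt γ p m.mir.wd = Wt γ p m.wd := by
  simp only [MF.wd, Wt, MF.deg_mir]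
  congr 1
  have h1 : m.mir.plug.dfw.Perm m.plug.dfw := by
    rw [MF.plug_mir]
    exact dfw_mir_perm _
  rw [mf_dfw, mf_dfw] at h1
  have h2 : ∀ (a b : List ℕ) (k : ℕ), (a ++ k :: b).Perm (k :: (b ++ a)) := fun a b k =>
    List.perm_append_comm
  have h3 : (m.deg :: (m.mir.rgt.dfw ++ m.mir.aw)).Perm (m.deg :: (m.rgt.dfw ++ m.aw)) := by
    rw [MF.deg_mir] at h1
    exact ((h2 _ _ _).symm.trans h1).trans (h2 _ _ _)
  exact ((List.Perm.cons_inv h3).map p).prod_eq

theorem Ph_nonneg (γ p : ℕ → ℝ) (hγ : ∀ k, 0 ≤ γ k) (hp : ∀ k, 0 ≤ p k)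
    (B : ℕ → List ℕ → Prop) (x : List ℕ) : 0 ≤ Ph γ p B x := by
  cases x with
  | nil => exact le_refl _
  | cons k y =>
    by_cases hB : B k y
    · simp only [Ph, if_pos hB]
      refine mul_nonneg (hγ k) (List.prod_nonneg ?_)
      intro a ha
      obtain ⟨b, _, rfl⟩ := List.mem_map.1 ha
      exact hp b
    · simp only [Ph, if_neg hB]
      exact le_refl _

theorem Ph_of (γ p : ℕ → ℝ) (B : ℕ → List ℕ → Prop) (m : MF)
    (h : B m.deg (m.rgt.dfw ++ m.aw)) : Ph γ p B m.wd = Wt γ p m.wd := by
  simp only [MF.wd, Ph, Wt, if_pos h]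

/-- comparison of an event for marked trees with an event for words -/
theorem TM_le_of (n K : ℕ) (hn : 1 ≤ n) (hK : n ≤ K) (γ p : ℕ → ℝ) (hγ : ∀ k, 0 ≤ γ k)
    (hp : ∀ k, 0 ≤ p k) (A : Forest → Prop) (B : ℕ → List ℕ → Prop)
    (h : ∀ m : MF, A m.plug → B m.deg (m.rgt.dfw ++ m.aw)) :
    TM n γ p A ≤ ∑ k ∈ range K, γ k * Pr p K (n - 1) (fun y => stp y = -(k : ℤ) ∧ B k y) := by
  classical
  rw [TM_eq_Sg, ← Sg_Ph n K hn hK]
  refine Sg_le _ _ _ fun m _ => ?_
  split_ifs with hA
  · rw [Ph_of _ _ _ _ (h m hA)]
  · exact Ph_nonneg _ _ hγ hp _ _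

end CG

/-- C3: height, lower bound (the subtrees of the marked vertex). -/
theorem TM_hei_le (n K : ℕ) (hn : 1 ≤ n) (hK : n ≤ K) (γ p : ℕ → ℝ) (hγ : ∀ k, 0 ≤ γ k)
    (hp : ∀ k, 0 ≤ p k) (h : ℕ) :
    TM n γ p (fun T => hei T ≤ h) ≤
      ∑ k ∈ range K, γ k * Pr p K (n - 1) (fun y => stp y = -(k : ℤ) ∧ ShortR y k h) := by
  refine TM_le_of n K hn hK γ p hγ hp _ (fun k y => ShortR y k h) ?_
  intro m hm
  obtain ⟨G, hG⟩ := m.rgt_chl
  refine ⟨m.chl, ?_, m.len_chl, ?_⟩
  · rw [hG, dfw_app, List.append_assoc]
    exact List.prefix_append _ _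
  · have h1 := m.ht_chl
    unfold hei at hm
    omega

/-- C4: the width is at least every degree. -/
theorem TM_wid_lt (n K : ℕ) (hn : 1 ≤ n) (hK : n ≤ K) (γ p : ℕ → ℝ) (hγ : ∀ k, 0 ≤ γ k)
    (hp : ∀ k, 0 ≤ p k) (w0 : ℕ) :
    TM n γ p (fun T => wid T < w0) ≤
      ∑ k ∈ range K, γ k * Pr p K (n - 1) (fun y => stp y = -(k : ℤ) ∧ k < w0) := by
  refine TM_le_of n K hn hK γ p hγ hp _ (fun k _ => k < w0) ?_
  intro m hm
  exact lt_of_le_of_lt (m.deg_le_lev.trans (lev_le_wid _ _)) hm

/-- C2: height, upper bound (right part of the tree seen from the marked vertex, mirror image,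
depth of the marked vertex). -/
theorem TM_hei_gt (n K : ℕ) (hn : 1 ≤ n) (hK : n ≤ K) (γ p : ℕ → ℝ) (hγ : ∀ k, 0 ≤ γ k)
    (hp : ∀ k, 0 ≤ p k) (d h : ℕ) :
    TM n γ p (fun T => d + h < hei T) ≤
      2 * ∑ k ∈ range K, γ k * Pr p K (n - 1) (fun y => stp y = -(k : ℤ) ∧ TallR y h) +
      ∑ k ∈ range K, γ k * Pr p K (n - 1) (fun y => stp y = -(k : ℤ) ∧ d < nns y) := by
  classical
  rw [TM_eq_Sg, ← Sg_Ph n K hn hK γ p (fun _ y => TallR y h),
    ← Sg_Ph n K hn hK γ p (fun _ y => d < nns y), two_mul]
  nth_rewrite 2 [← Sg_mir]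
  rw [← Sg_add, ← Sg_add]
  refine Sg_le _ _ _ fun m _ => ?_
  have n1 := Ph_nonneg γ p hγ hp (fun _ y => TallR y h) m.wd
  have n2 := Ph_nonneg γ p hγ hp (fun _ y => TallR y h) m.mir.wd
  have n3 := Ph_nonneg γ p hγ hp (fun _ y => d < nns y) m.wd
  split_ifs with hA
  · have h1 := m.ht_le
    unfold hei at hA
    have h2 : d < m.dep ∨ h < m.rgt.ht ∨ h < m.mir.rgt.ht := by omega
    rcases h2 with h2 | h2 | h2
    · have e : Ph γ p (fun _ y => d < nns y) m.wd = Wt γ p m.wd := by
        refine Ph_of _ _ _ _ ?_
        exact lt_of_lt_of_le h2 ((dep_le_nns_aw m).trans (nns_le_append _ _))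
      linarith
    · have e : Ph γ p (fun _ y => TallR y h) m.wd = Wt γ p m.wd := by
        refine Ph_of _ _ _ _ ?_
        exact ⟨m.rgt, List.prefix_append _ _, h2⟩
      linarith
    · have e : Ph γ p (fun _ y => TallR y h) m.mir.wd = Wt γ p m.wd := by
        rw [← Wt_mir]
        refine Ph_of _ _ _ _ ?_
        exact ⟨m.mir.rgt, List.prefix_append _ _, h2⟩
      linarith
  · linarith

end HW
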